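import Pool.Agent.Lib.H48L.Defs

/-!
# H48L, chunk A1: the cost function is computable
-/

open MeasureTheory Set Filter H69K H48K

namespace H48L

private theorem a1_st : Primrec₂ st := by
  have h1 : Primrec fun q : ℕ × ℕ => Nat.Partrec.Code.evaln q.1
      (Denumerable.ofNat Nat.Partrec.Code q.2.unpair.1) q.2.unpair.2 := by
    have hu : Primrec fun q : ℕ × ℕ => q.2.unpair := Primrec.unpair.comp Primrec.snd
    have hc : Primrec fun q : ℕ × ℕ => Denumerable.ofNat Nat.Partrec.Code q.2.unpair.1 :=
      (Primrec.ofNat Nat.Partrec.Code).comp (Primrec.fst.comp hu)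
    have h := Nat.Partrec.Code.primrec_evaln.comp
      ((Primrec.fst.pair hc).pair (Primrec.snd.comp hu))
    exact h
  have h2 : Primrec₂ fun (q : ℕ × ℕ) (x : ℕ) => decide (x ≤ q.1) :=
    Primrec.nat_le.decide.comp Primrec.snd (Primrec.fst.comp Primrec.fst)
  have h3 := Primrec.option_casesOn h1 (Primrec.const false) h2
  refine h3.of_eq fun q => ?_
  unfold st
  cases Nat.Partrec.Code.evaln q.1 (Denumerable.ofNat Nat.Partrec.Code q.2.unpair.1) q.2.unpair.2 <;> rfl

theorem computable_cost : Computable cost := by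
  have h1 : Primrec₂ fun (t m : ℕ) => (st t m && !(st (t - 1) m)) := by
    have e1 : Primrec fun q : ℕ × ℕ => st q.1 q.2 := a1_st
    have e2 : Primrec fun q : ℕ × ℕ => st (q.1 - 1) q.2 :=
      a1_st.comp (Primrec.pred.comp Primrec.fst) Primrec.snd
    have h := Primrec.and.comp e1 (Primrec.not.comp e2)
    exact h
  have h2 := Primrec.list_findIdx Primrec.list_range h1
  exact h2.to_comp

end H48L
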