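import Pool.Agent.Lib.H48L.Defs

/-!
# H48L, chunk A2: the costs are summable
-/

open MeasureTheory Set Filter H69K H48K

namespace H48L

/-- `st` is monotone in the time (`Nat.Partrec.Code.evaln_mono`). -/
theorem st_mono {t t' m : ℕ} (h : t ≤ t') (hs : st t m = true) : st t' m = true := by
  unfold st at hs ⊢
  cases he : Nat.Partrec.Code.evaln t (Denumerable.ofNat Nat.Partrec.Code m.unpair.1)
      m.unpair.2 with
  | none =>
    rw [he] at hs
    exact absurd hs Bool.false_ne_true
  | some x =>
    rw [he] at hs
    have hx : x ≤ t := by simpa using hs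
    have h1 : x ∈ Nat.Partrec.Code.evaln t'
        (Denumerable.ofNat Nat.Partrec.Code m.unpair.1) m.unpair.2 :=
      Nat.Partrec.Code.evaln_mono h (by rw [he]; exact Option.mem_some_self x)
    rw [Option.mem_def] at h1
    rw [h1]
    simpa using hx.trans h

private theorem a2_le (t : ℕ) : cost t ≤ t := by
  unfold cost
  have h := List.findIdx_le_length (xs := List.range t) (p := fun m => st t m && !(st (t - 1) m))
  rwa [List.length_range] at h

/-- If `cost t ≠ t`, then `cost t < t` and the computation `cost t` stops exactly at the step `t`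
(`List.findIdx_getElem`, `List.findIdx_le_length`). -/
theorem cost_spec {t : ℕ} (h : cost t ≠ t) :
    cost t < t ∧ st t (cost t) = true ∧ st (t - 1) (cost t) = false := by
  have h1 : cost t < t := lt_of_le_of_ne (a2_le t) h
  refine ⟨h1, ?_⟩
  have h2 : (List.range t).findIdx (fun m => st t m && !(st (t - 1) m)) < (List.range t).length := by
    rw [List.length_range]
    exact h1
  have h3 := List.findIdx_getElem (w := h2)
  rw [List.getElem_range] at h3
  have h4 : (st t (cost t) && !(st (t - 1) (cost t))) = true := h3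
  rw [Bool.and_eq_true, Bool.not_eq_true'] at h4
  exact h4

/-- If the computation `m < t` stops exactly at the step `t`, then `cost t ≤ m`. -/
theorem cost_le {t m : ℕ} (hm : m < t) (h1 : st t m = true) (h2 : st (t - 1) m = false) :
    cost t ≤ m := by
  by_contra hc
  have h3 : m < (List.range t).findIdx (fun m => st t m && !(st (t - 1) m)) := not_le.1 hc
  have h4 := List.not_of_lt_findIdx h3
  rw [List.getElem_range, h1, h2] at h4
  exact absurd h4 (by decide)

private theorem a2_inj {t t' : ℕ} (h : cost t ≠ t) (h' : cost t' ≠ t') (hc : cost t = cost t') : ¬ t < t' := by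
  intro hlt
  obtain ⟨-, h1, -⟩ := cost_spec h
  obtain ⟨-, -, h2⟩ := cost_spec h'
  have h3 := st_mono (t' := t' - 1) (by omega) h1
  rw [hc, h2] at h3
  exact absurd h3 Bool.false_ne_true

/-- A2. `cost` is injective on `{t | cost t ≠ t}`: if `cost t = cost t' = m`, `t < t'`, then `st t m`, `t ≤ t' - 1`, so
`st (t' - 1) m` by monotonicity, contradiction. So `(1/2)^(cost t) ≤ (1/2)^t + g t` with `g t = if cost t ≠ t then
(1/2)^(cost t) else 0`, and `g` is summable (`Summable.comp_injective` on the subtype, or bounded partial sums: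
every finite sum of `g` is at most `∑ (1/2)^m ≤ 2`). -/
theorem summable_cost : Summable fun n : ℕ => (1 / 2 : ℝ) ^ cost n := by
  have hg : Summable fun n : ℕ => (1 / 2 : ℝ) ^ n := summable_geometric_two
  have hinj : Function.Injective (fun t : {t : ℕ | cost t ≠ t} => cost t.1) := by
    rintro ⟨t, ht⟩ ⟨t', ht'⟩ hc
    have hc' : cost t = cost t' := hc
    rcases lt_trichotomy t t' with h | h | h
    · exact absurd h (a2_inj ht ht' hc')
    · exact Subtype.ext h
    · exact absurd h (a2_inj ht' ht hc'.symm)
  have h1 : Summable ((fun n : ℕ => (1 / 2 : ℝ) ^ cost n) ∘ ((↑) : {t : ℕ | cost t ≠ t} → ℕ)) :=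
    hg.comp_injective hinj
  rw [summable_subtype_iff_indicator] at h1
  refine Summable.of_nonneg_of_le (fun n => by positivity) (fun n => ?_) (hg.add h1)
  by_cases h : cost n = n
  · have h2 : (0 : ℝ) ≤ ({t : ℕ | cost t ≠ t}.indicator fun n : ℕ => (1 / 2 : ℝ) ^ cost n) n :=
      Set.indicator_nonneg (fun _ _ => by positivity) n
    rw [h]
    linarith
  · rw [Set.indicator_of_mem (show n ∈ {t : ℕ | cost t ≠ t} from h)]
    have h2 : (0 : ℝ) ≤ (1 / 2 : ℝ) ^ n := by positivity
    linarith

end H48L
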