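import Pool.Agent.Lib.H48L.A2

/-!
# H48L, chunk A3: the active stages dominate all computable functions of their costs
-/

open MeasureTheory Set Filter H69K H48K

namespace H48L

private def a3_S (G : ℕ → ℕ) (n : ℕ) : ℕ := Nat.rec (motive := fun _ => ℕ) 0 (fun i acc => acc + G i) n

private theorem a3_S_succ (G : ℕ → ℕ) (n : ℕ) : a3_S G (n + 1) = a3_S G n + G n := rfl

private theorem a3_le_S (G : ℕ → ℕ) {j n : ℕ} (h : j < n) : G j ≤ a3_S G n := by
  induction n with
  | zero => omega
  | succ n ih =>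
    rw [a3_S_succ]
    rcases Nat.lt_succ_iff_lt_or_eq.1 h with h1 | h1
    · exact le_trans (ih h1) (Nat.le_add_right _ _)
    · rw [h1]
      exact Nat.le_add_left _ _

private theorem a3_comp_S {G : ℕ → ℕ} (hG : Computable G) : Computable (a3_S G) := by
  have h : Computable₂ (fun (_ : ℕ) (p : ℕ × ℕ) => p.2 + G p.1) :=
    (Primrec.nat_add.to_comp).comp (Computable.snd.comp Computable.snd)
      (hG.comp (Computable.fst.comp Computable.snd))
  exact Computable.nat_rec (f := fun n : ℕ => n) (g := fun _ : ℕ => (0 : ℕ))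
    (h := fun (_ : ℕ) (p : ℕ × ℕ) => p.2 + G p.1) Computable.id (Computable.const 0) h

private def a3_F (G : ℕ → ℕ) (k : ℕ) : ℕ :=
  a3_S G ((2 * k + 2) * (2 * k + 2) + 1) + (2 * k + 2) * (2 * k + 2)

private theorem a3_comp_F {G : ℕ → ℕ} (hG : Computable G) : Computable (a3_F G) := by
  have h1 : Primrec (fun k : ℕ => 2 * k + 2) :=
    Primrec.nat_add.comp (Primrec.nat_mul.comp (Primrec.const 2) Primrec.id) (Primrec.const 2)
  have h2 : Primrec (fun k : ℕ => (2 * k + 2) * (2 * k + 2)) := Primrec.nat_mul.comp h1 h1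
  have h3 : Primrec (fun k : ℕ => (2 * k + 2) * (2 * k + 2) + 1) :=
    Primrec.nat_add.comp h2 (Primrec.const 1)
  exact (Primrec.nat_add.to_comp).comp ((a3_comp_S hG).comp h3.to_comp) h2.to_comp

private theorem a3_code {F : ℕ → ℕ} (hF : Computable F) :
    ∃ a : ℕ, ∀ k, ∃ τ, F k ≤ τ ∧ (0 < τ → st τ (Nat.pair a k) = true ∧
      st (τ - 1) (Nat.pair a k) = false) := by
  obtain ⟨C, hC⟩ := Nat.Partrec.Code.exists_code.1 (Partrec.nat_iff.1 hF)
  refine ⟨Encodable.encode C, fun k => ?_⟩
  have h_some : ∀ t x, Nat.Partrec.Code.evaln t C k = some x →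
      st t (Nat.pair (Encodable.encode C) k) = decide (x ≤ t) := by
    intro t x h
    unfold st
    rw [Nat.unpair_pair]
    simp only [Denumerable.ofNat_encode, h]
  have h_true : ∀ t, st t (Nat.pair (Encodable.encode C) k) = true →
      ∃ x, Nat.Partrec.Code.evaln t C k = some x ∧ x ≤ t := by
    intro t ht
    cases he : Nat.Partrec.Code.evaln t C k with
    | none =>
      exfalso
      unfold st at ht
      rw [Nat.unpair_pair] at ht
      simp only [Denumerable.ofNat_encode, he] at ht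
      exact absurd ht Bool.false_ne_true
    | some x =>
      rw [h_some t x he] at ht
      exact ⟨x, rfl, by simpa using ht⟩
  have hex : ∃ t, st t (Nat.pair (Encodable.encode C) k) = true := by
    have h1 : F k ∈ Nat.Partrec.Code.eval C k := by
      rw [hC]
      exact Part.mem_some _
    obtain ⟨t, ht⟩ := Nat.Partrec.Code.evaln_complete.1 h1
    have h2 := Nat.Partrec.Code.evaln_mono (le_max_left t (F k)) ht
    rw [Option.mem_def] at h2
    refine ⟨max t (F k), ?_⟩
    rw [h_some _ _ h2]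
    simp
  classical
  refine ⟨Nat.find hex, ?_, fun h0 => ⟨Nat.find_spec hex, ?_⟩⟩
  · obtain ⟨x, he, h2⟩ := h_true _ (Nat.find_spec hex)
    have h3 : x ∈ Nat.Partrec.Code.eval C k :=
      Nat.Partrec.Code.evaln_sound (by rw [he]; exact Option.mem_some_self x)
    rw [hC] at h3
    have h4 : x = F k := Part.mem_some_iff.1 h3
    rw [← h4]
    exact h2
  · have h1 := Nat.find_min hex (show Nat.find hex - 1 < Nat.find hex by omega)
    exact Bool.eq_false_iff.2 h1

/-- A3. Let `F k = (∑ j ≤ (2 k + 2)^2, G j)` plus `(2k+2)^2` (computable, so `F` is `Nat.Partrec`, with a code number `a`: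
`Nat.Partrec.Code.exists_code`, `Denumerable.ofNat_encode`). For `m = Nat.pair a k` let `τ` be the least `t` with `st t m = true`
(it exists by `Nat.Partrec.Code.evaln_complete`; `τ ≥ F k`, `τ > 0` as `evaln 0 = none`, so `m < τ` because
`F k ≥ (2k+2)^2 > (a + k + 1)^2 > m` for `k ≥ a`). So `cost τ ≤ m` (`cost_le`).
Let `n` be active with `K = cost n` large; let `k` be the greatest number with `Nat.pair a k ≤ K` (so `k ≥ a` for large `K`, `K <
Nat.pair a (k+1) ≤ (a + k + 2)^2 ≤ (2k+2)^2`). Then `cost τ ≤ m ≤ K`, so `τ ≤ n` (otherwise `Act` gives `K < cost τ`), and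
`G K ≤ F k ≤ τ ≤ n`. `K = cost n` is large for large `n`: `tendsto_cost`. -/
theorem dominate (G : ℕ → ℕ) (hG : Computable G) (hc : Tendsto cost atTop atTop) :
    ∀ᶠ n in atTop, Act cost n → G (cost n) ≤ n := by
  obtain ⟨a, ha⟩ := a3_code (a3_comp_F hG)
  filter_upwards [hc.eventually (eventually_ge_atTop (Nat.pair a a))] with n hn hact
  obtain ⟨K, hK⟩ : ∃ K, K = cost n := ⟨_, rfl⟩
  rw [← hK] at hn ⊢
  have hle : a ≤ K := le_trans (Nat.right_le_pair a a) hn
  obtain ⟨k, hk⟩ : ∃ k, k = Nat.findGreatest (fun k => Nat.pair a k ≤ K) K := ⟨_, rfl⟩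
  have hak : a ≤ k := by
    rw [hk]
    exact Nat.le_findGreatest hle hn
  have hkK : Nat.pair a k ≤ K := by
    rw [hk]
    exact Nat.findGreatest_spec (P := fun k => Nat.pair a k ≤ K) hle hn
  have hK1 : K < Nat.pair a (k + 1) := by
    by_contra hcon
    have h1 : Nat.pair a (k + 1) ≤ K := not_lt.1 hcon
    have h2 : k + 1 ≤ K := le_trans (Nat.right_le_pair a (k + 1)) h1
    have h3 : k + 1 ≤ Nat.findGreatest (fun k => Nat.pair a k ≤ K) K :=
      Nat.le_findGreatest h2 h1
    omega
  have hK2 : K < (2 * k + 2) * (2 * k + 2) + 1 := by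
    have h1 := Nat.pair_lt_max_add_one_sq a (k + 1)
    rw [max_eq_right (by omega)] at h1
    have h2 : (k + 1 + 1) ^ 2 ≤ (2 * k + 2) * (2 * k + 2) := by
      rw [sq]
      exact Nat.mul_le_mul (by omega) (by omega)
    omega
  have hGF : G K ≤ a3_F G k := le_trans (a3_le_S G hK2) (Nat.le_add_right _ _)
  have hsq : (2 * k + 2) * (2 * k + 2) ≤ a3_F G k := Nat.le_add_left _ _
  have hpos : 0 < (2 * k + 2) * (2 * k + 2) := by positivity
  have hm : Nat.pair a k < (2 * k + 2) * (2 * k + 2) := by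
    have h1 := Nat.pair_lt_max_add_one_sq a k
    rw [max_eq_right hak] at h1
    have h2 : (k + 1) ^ 2 ≤ (2 * k + 2) * (2 * k + 2) := by
      rw [sq]
      exact Nat.mul_le_mul (by omega) (by omega)
    omega
  obtain ⟨τ, h1, h2⟩ := ha k
  obtain ⟨h3, h4⟩ := h2 (by omega)
  have h5 : cost τ ≤ Nat.pair a k := cost_le (by omega) h3 h4
  have h6 : τ ≤ n := by
    by_contra hcon
    have h7 := hact τ (not_le.1 hcon)
    omega
  omega

end H48L
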