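import Pool.Agent.Lib.H48L.Defs

/-!
# H48L, chunk A4: there are infinitely many active stages
-/

open MeasureTheory Set Filter H69K H48K

namespace H48L

/-- The general term of a convergent series tends to 0. -/
theorem tendsto_of_summable {c : ℕ → ℕ} (h : Summable fun n : ℕ => (1 / 2 : ℝ) ^ c n) :
    Tendsto c atTop atTop := by
  have h0 := h.tendsto_atTop_zero
  refine tendsto_atTop.2 fun b => ?_
  have hb : (0 : ℝ) < (1 / 2 : ℝ) ^ b := by positivity
  filter_upwards [h0.eventually (gt_mem_nhds hb)] with n hn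
  by_contra hlt
  have h1 : (1 / 2 : ℝ) ^ b ≤ (1 / 2 : ℝ) ^ c n :=
    pow_le_pow_of_le_one (by norm_num) (by norm_num) (le_of_not_ge hlt)
  exact absurd hn (not_lt.2 h1)

/-- For `N` let `v` be the least value of `c` on `{n | N ≤ n}`; the set `{n | N ≤ n, c n = v}` is finite (as `c → ∞`)
and nonempty; its greatest element is active. -/
theorem infinite_act {c : ℕ → ℕ} (h : Tendsto c atTop atTop) : Set.Infinite {n | Act c n} := by
  classical
  refine Set.infinite_of_forall_exists_gt fun N => ?_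
  have hex : ∃ k, ∃ n, N < n ∧ c n = k := ⟨c (N + 1), N + 1, Nat.lt_succ_self N, rfl⟩
  obtain ⟨v, hv⟩ : ∃ v, v = Nat.find hex := ⟨_, rfl⟩
  have hv1 : ∃ n, N < n ∧ c n = v := by
    rw [hv]
    exact Nat.find_spec hex
  have hv2 : ∀ n, N < n → v ≤ c n := by
    intro n hn
    rw [hv]
    exact Nat.find_min' hex ⟨n, hn, rfl⟩
  obtain ⟨M, hM⟩ := eventually_atTop.1 ((tendsto_atTop.1 h) (v + 1))
  have hT : ∀ n, N < n → c n = v → n < M := by
    intro n _ hc
    by_contra h1
    have := hM n (not_lt.1 h1)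
    omega
  obtain ⟨n1, hn1, hc1⟩ := hv1
  have hne : ((Finset.range M).filter fun n => N < n ∧ c n = v).Nonempty :=
    ⟨n1, Finset.mem_filter.2 ⟨Finset.mem_range.2 (hT n1 hn1 hc1), hn1, hc1⟩⟩
  obtain ⟨n0, hn0, hmax⟩ := Finset.exists_max_image _ (fun n => n) hne
  obtain ⟨-, hN0, hc0⟩ := Finset.mem_filter.1 hn0
  refine ⟨n0, ?_, hN0⟩
  intro m hm
  have hNm : N < m := lt_trans hN0 hm
  have h1 := hv2 m hNm
  rcases Nat.lt_or_ge v (c m) with h2 | h2
  · rw [hc0]
    exact h2
  · have h3 : c m = v := le_antisymm h2 h1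
    have h4 := hmax m (Finset.mem_filter.2 ⟨Finset.mem_range.2 (hT m hNm h3), hNm, h3⟩)
    exact absurd hm (not_lt.2 h4)

end H48L
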