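import Pool.Agent.Lib.H48L.Defs
import Pool.Agent.Lib.H48K.C

/-!
# H48L, chunk B1: the places form a plan; computability of the rules
-/

open MeasureTheory Set Filter H69K H48K

namespace H48L

variable {c : ℕ → ℕ}

private theorem b1_ss_succ (c : ℕ → ℕ) (n : ℕ) : ss c (n + 1) = ss c n + (1 + 2 * LL c n) := by
  unfold ss
  rw [Finset.sum_range_succ]

private theorem b1_ss_mono (c : ℕ → ℕ) : StrictMono (ss c) := by
  apply strictMono_nat_of_lt_succ
  intro n
  rw [b1_ss_succ]
  omega

private theorem b1_LL_ge (c : ℕ → ℕ) (n : ℕ) : 256 * (n + 1) ≤ LL c n := by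
  unfold LL
  have h1 : 1 ≤ (c n + 1) ^ 3 := Nat.one_le_pow _ _ (Nat.succ_pos _)
  have h2 : n + 1 ≤ (n + 1) ^ 2 := by nlinarith
  calc 256 * (n + 1) = 256 * 1 * (n + 1) := by ring
    _ ≤ 256 * (c n + 1) ^ 3 * (n + 1) ^ 2 := Nat.mul_le_mul (Nat.mul_le_mul_left _ h1) h2

/-- B1a. A (virtual) plan in the sense of H48K with these places, so that `sel_f1` and `f1_mono` can be used: `M n = 1`,
`b i = 2` for all `i`, `a i = 2` if `i` is in a first region (`∃ n, ss c n < i ∧ i ≤ ss c n + LL c n`), else `a i = 1`. Then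
`w a b 1 i = 1` in the first regions (`2^1 * 2 / (2 * 2) = 1`), `SS = LL c n ≥ 256 (n + 1)`, `e a b i = 0` in the second
regions (they are disjoint from all first regions, `ss` is strictly monotone). -/
theorem exists_vplan (c : ℕ → ℕ) : ∃ a b M : ℕ → ℕ, Plan a b (ss c) (tt c) M (LL c) := by
  classical
  refine ⟨fun i => if ∃ n, ss c n < i ∧ i ≤ ss c n + LL c n then 2 else 1, fun _ => 2, fun _ => 1,
    ?_, ?_, ?_, ?_⟩
  · intro n
    exact le_rfl
  · intro n
    rw [b1_ss_succ]
    unfold tt
    ring
  · intro n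
    have h : SS (fun i => if ∃ n, ss c n < i ∧ i ≤ ss c n + LL c n then 2 else 1) (fun _ => 2) 1
        (ss c n + 1) (LL c n) = LL c n := by
      unfold SS
      rw [Finset.sum_congr rfl (g := fun _ => 1)]
      · simp
      · intro i hi
        rw [Finset.mem_range] at hi
        have h1 : ∃ m, ss c m < ss c n + 1 + i ∧ ss c n + 1 + i ≤ ss c m + LL c m :=
          ⟨n, by omega, by omega⟩
        simp [w, e, h1]
    show 64 * (n + 1) * 4 ^ 1 ≤ SS _ _ 1 (ss c n + 1) (LL c n)
    rw [h]
    have := b1_LL_ge c n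
    omega
  · intro n i hi
    have h1 : ¬ ∃ m, ss c m < tt c n + i ∧ tt c n + i ≤ ss c m + LL c m := by
      rintro ⟨m, h2, h3⟩
      unfold tt at h2 h3
      rcases Nat.lt_trichotomy m n with h | h | h
      · have h4 := (b1_ss_mono c).monotone (show m + 1 ≤ n from h)
        rw [b1_ss_succ] at h4
        omega
      · subst h
        omega
      · have h4 := (b1_ss_mono c).monotone (show n + 1 ≤ m from h)
        rw [b1_ss_succ] at h4
        omega
    have h2 : e (fun i => if ∃ n, ss c n < i ∧ i ≤ ss c n + LL c n then 2 else 1) (fun _ => 2)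
        (tt c n + i) = 0 := by
      simp [e, h1]
    rw [h2]
    simp

private theorem b1_mul {f g : ℕ → ℕ} (hf : Computable f) (hg : Computable g) :
    Computable (fun n => f n * g n) :=
  Primrec.nat_mul.to_comp.comp hf hg

private theorem b1_add {f g : ℕ → ℕ} (hf : Computable f) (hg : Computable g) :
    Computable (fun n => f n + g n) :=
  Primrec.nat_add.to_comp.comp hf hg

/-- B1b. `H48K.computable_sum` for `ss`. -/
theorem computable_places (hc : Computable c) :
    Computable (LL c) ∧ Computable (ss c) ∧ Computable (tt c) ∧ Computable (th c) := by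
  have hc1 : Computable (fun n => c n + 1) := Computable.succ.comp hc
  have hn1 : Computable (fun n : ℕ => n + 1) := Computable.succ
  have hc2 : Computable (fun n => (c n + 1) ^ 2) := (b1_mul hc1 hc1).of_eq fun n => by ring
  have hc3 : Computable (fun n => (c n + 1) ^ 3) := (b1_mul hc2 hc1).of_eq fun n => by ring
  have hn2 : Computable (fun n : ℕ => (n + 1) ^ 2) := (b1_mul hn1 hn1).of_eq fun n => by ring
  have hLL : Computable (LL c) :=
    (b1_mul (b1_mul (Computable.const 256) hc3) hn2).of_eq fun n => rfl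
  have hss : Computable (ss c) := by
    have hF : Computable₂ (fun (_ : ℕ) (m : ℕ) => 1 + 2 * LL c m) := by
      have h := b1_add (Computable.const 1) (b1_mul (Computable.const 2) hLL)
      exact (h.comp (Computable.snd (α := ℕ) (β := ℕ))).to₂
    exact (computable_sum hF Computable.id).of_eq fun n => rfl
  have htt : Computable (tt c) :=
    (b1_add (b1_add hss (Computable.const 1)) hLL).of_eq fun n => rfl
  have hth : Computable (th c) :=
    (b1_add (b1_mul (b1_mul (Computable.const 128) hc3) hn2)
      (b1_mul (b1_mul (Computable.const 32) hc2) hn1)).of_eq fun n => rfl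
  exact ⟨hLL, hss, htt, hth⟩

end H48L
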