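import Pool.Agent.Lib.H48L.B1

/-!
# H48L, chunk B2: the second rule is computable
-/

open MeasureTheory Set Filter H69K H48K

namespace H48L

variable {c : ℕ → ℕ}

section

variable {α : Type*} [Primcodable α]

private theorem b2_add {f g : α → ℕ} (hf : Computable f) (hg : Computable g) :
    Computable fun x => f x + g x :=
  Primrec.nat_add.to_comp.comp hf hg

private theorem b2_lt {f g : α → ℕ} (hf : Computable f) (hg : Computable g) :
    Computable fun x => decide (f x < g x) :=
  Primrec.nat_lt.decide.to_comp.comp hf hg

private theorem b2_le {f g : α → ℕ} (hf : Computable f) (hg : Computable g) :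
    Computable fun x => decide (f x ≤ g x) :=
  Primrec.nat_le.decide.to_comp.comp hf hg

private theorem b2_ite {β : Type*} [Primcodable β] {p : α → Prop} [DecidablePred p] {f g : α → β}
    (hp : Computable fun x => decide (p x)) (hf : Computable f) (hg : Computable g) :
    Computable fun x => if p x then f x else g x := by
  refine (Computable.cond hp hf hg).of_eq fun x => ?_
  by_cases h : p x <;> simp [h]

private theorem b2_tst (hc : Computable c) {n : α → ℕ} (hn : Computable n) {y : α → ℕ → Bool}
    (hy : Computable₂ y) : Computable fun x => tst c (n x) (y x) := by
  unfold tst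
  obtain ⟨hL, -, -, hth⟩ := computable_places hc
  have hF : Computable₂ fun (x : α) (i : ℕ) => if y x i = true then (1 : ℕ) else 0 := by
    have h1 : Computable fun q : α × ℕ => bif y q.1 q.2 then (1 : ℕ) else 0 :=
      Computable.cond hy (Computable.const 1) (Computable.const 0)
    have h2 : Computable fun q : α × ℕ => if y q.1 q.2 = true then (1 : ℕ) else 0 := by
      refine h1.of_eq fun q => ?_
      cases y q.1 q.2 <;> rfl
    exact h2.to₂
  have h1 : Computable fun x => th c (n x) := hth.comp hn
  have h2 : Computable fun x => LL c (n x) := hL.comp hn
  have h3 := computable_sum hF h2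
  exact b2_le h1 h3

end

/-- B2. Compare `H48K.computable_f2` (C2.lean) and `computable_f1` (C.lean): `computable_u`, `computable_blk`,
`computable_sum` (with parameters), `computable_places`. Use the pattern `have h := ..comp ..; exact h` (fast elaboration). -/
theorem computable_gg (hc : Computable c) : Computable (gg c) := by
  obtain ⟨hL, -, -, -⟩ := computable_places hc
  have hlen : Computable fun v : List Bool => v.length := Primrec.list_length.to_comp
  have hB : Computable fun v : List Bool => blk (LL c) v.length := (computable_blk hL).comp hlen
  have hu : Computable fun v : List Bool => u (LL c) (blk (LL c) v.length) :=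
    (computable_u hL).comp hB
  have hu1 : Computable fun v : List Bool => u (LL c) (blk (LL c) v.length + 1) :=
    (computable_u hL).comp (b2_add hB (Computable.const 1))
  have hl1 : Computable fun v : List Bool => v.length + 1 := b2_add hlen (Computable.const 1)
  have hy : Computable₂ fun (v : List Bool) (i : ℕ) =>
      v.getD (u (LL c) (blk (LL c) v.length) + i) false := by
    have h1 : Computable fun p : List Bool × ℕ => u (LL c) (blk (LL c) p.1.length) + p.2 :=
      b2_add (hu.comp Computable.fst) Computable.snd
    exact (Primrec.list_getD false).to_comp.comp (Computable.fst (α := List Bool) (β := ℕ)) h1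
  have hd : Computable fun v : List Bool =>
      tst c (blk (LL c) v.length)
        (fun i => v.getD (u (LL c) (blk (LL c) v.length) + i) false) :=
    b2_tst hc hB hy
  exact b2_ite (b2_lt hl1 hu1) (hl1.pair (Computable.const false)) (hu.pair hd)

end H48L
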