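import Pool.Agent.Lib.H48L.Defs

/-!
# H48L, chunk B3: the run of the second rule
-/

open MeasureTheory Set Filter H69K H48K

namespace H48L

variable {c : ℕ → ℕ}

private theorem b3_u_succ (L : ℕ → ℕ) (n : ℕ) : u L (n + 1) = u L n + (L n + 1) := by
  unfold u
  rw [Finset.sum_range_succ]

private theorem b3_u_mono (L : ℕ → ℕ) : StrictMono (u L) := by
  apply strictMono_nat_of_lt_succ
  intro n
  rw [b3_u_succ]
  omega

private theorem b3_tst_congr (c : ℕ → ℕ) (n : ℕ) (y y' : ℕ → Bool) (h : ∀ i < LL c n, y i = y' i) :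
    tst c n y = tst c n y' := by
  unfold tst
  have h1 : (∑ i ∈ Finset.range (LL c n), if y i = true then 1 else 0) =
      ∑ i ∈ Finset.range (LL c n), if y' i = true then 1 else 0 := by
    apply Finset.sum_congr rfl
    intro i hi
    rw [h i (Finset.mem_range.mp hi)]
  rw [h1]

private theorem b3_BB_head {s t : ℕ → ℕ} (L : ℕ → ℕ) (X : ℕ → Bool) (n : ℕ) : BB s t L X (u L n) = X (s n) := by
  have hb : blk L (u L n) = n := blk_eq L le_rfl (b3_u_mono L (Nat.lt_succ_self n))
  unfold BB
  rw [hb, if_pos rfl]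

private theorem b3_BB_reg {s t : ℕ → ℕ} (L : ℕ → ℕ) (X : ℕ → Bool) (n i : ℕ) (hi : i < L n) :
    BB s t L X (u L n + i + 1) = reg s t X n i := by
  have hs := b3_u_succ L n
  have hb : blk L (u L n + i + 1) = n := blk_eq L (by omega) (by omega)
  unfold BB
  rw [hb, if_neg (by omega)]
  unfold reg
  have e1 : s n + (u L n + i + 1 - u L n) = s n + 1 + i := by omega
  have e2 : t n + (u L n + i + 1 - u L n) - 1 = t n + i := by omega
  rw [e1, e2]

/-- B3. Copy of `H48K.sel_f2` (R2.lean) with `s = ss c`, `t = tt c`, `L = LL c`, `f2` replaced by `gg`, `D` by `DD`, `dec` by `tst`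
(`r2_dec_congr` for `tst`: `Finset.sum_congr`). `hP` is not used there. The last step uses only that `DD c X n = true` implies
`X (ss c n) = true`. -/
theorem sel_gg (X : ℕ → Bool) (hinf : Set.Infinite {n | DD c X n = true})
    (hev : ∀ᶠ n in atTop, DD c X n = true → X (ss c n) = true) :
    ∃ C : ℕ → Bool, Sel (fun v => Part.some (gg c v)) (BB (ss c) (tt c) (LL c) X) C ∧
      ∀ᶠ j in atTop, C j = true := by
  classical
  obtain ⟨pos, hpos⟩ : ∃ pos : ℕ → ℕ, ∀ k, pos k =
      if k + 1 < u (LL c) (blk (LL c) k + 1) then k + 1 else u (LL c) (blk (LL c) k) := ⟨_, fun _ => rfl⟩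
  obtain ⟨sel, hsel⟩ : ∃ sel : ℕ → Bool, ∀ k, sel k =
      if k + 1 < u (LL c) (blk (LL c) k + 1) then false else DD c X (blk (LL c) k) := ⟨_, fun _ => rfl⟩
  have hselT : ∀ k, sel k = true → ¬ (k + 1 < u (LL c) (blk (LL c) k + 1)) ∧
      DD c X (blk (LL c) k) = true := by
    intro k hk
    rw [hsel] at hk
    by_cases h : k + 1 < u (LL c) (blk (LL c) k + 1)
    · rw [if_pos h] at hk
      exact absurd hk (by decide)
    · rw [if_neg h] at hk
      exact ⟨h, hk⟩
  have hlast : ∀ n, blk (LL c) (u (LL c) n + LL c n) = n := by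
    intro n
    have hs := b3_u_succ (LL c) n
    exact blk_eq (LL c) (by omega) (by omega)
  have hselL : ∀ n, sel (u (LL c) n + LL c n) = DD c X n := by
    intro n
    have hs := b3_u_succ (LL c) n
    rw [hsel, hlast, if_neg (by omega)]
  have hInfSel : Set.Infinite {k : ℕ | sel k = true} := by
    have hinj : Function.Injective (fun n => u (LL c) n + LL c n) := by
      intro n m hnm
      have h1 : blk (LL c) (u (LL c) n + LL c n) = blk (LL c) (u (LL c) m + LL c m) := congrArg (blk (LL c)) hnm
      rw [hlast, hlast] at h1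
      exact h1
    have h2 := hinf.image (hinj.injOn)
    apply h2.mono
    rintro _ ⟨n, hn, rfl⟩
    show sel (u (LL c) n + LL c n) = true
    rw [hselL]
    exact hn
  refine ⟨fun j => BB (ss c) (tt c) (LL c) X (pos (Nat.nth (fun k => sel k = true) j)),
    ⟨pos, sel, ?_, ?_, hInfSel, fun _ => rfl⟩, ?_⟩
  · intro k
    have hlen : (List.ofFn (fun i : Fin k => BB (ss c) (tt c) (LL c) X (pos i))).length = k := List.length_ofFn
    have hb := blk_spec (LL c) k
    refine congrArg Part.some ?_
    unfold gg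
    rw [hlen, hpos, hsel]
    by_cases h : k + 1 < u (LL c) (blk (LL c) k + 1)
    · rw [if_pos h, if_pos h, if_pos h]
    · rw [if_neg h, if_neg h, if_neg h]
      have hs := b3_u_succ (LL c) (blk (LL c) k)
      have hk : k = u (LL c) (blk (LL c) k) + LL c (blk (LL c) k) := by omega
      unfold DD
      refine Prod.ext rfl ?_
      apply b3_tst_congr
      intro i hi
      have hik : u (LL c) (blk (LL c) k) + i < k := by omega
      rw [List.getD_eq_getElem _ _ (by rw [hlen]; exact hik), List.getElem_ofFn]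
      show BB (ss c) (tt c) (LL c) X (pos (u (LL c) (blk (LL c) k) + i)) = _
      have hbi : blk (LL c) (u (LL c) (blk (LL c) k) + i) = blk (LL c) k := blk_eq (LL c) (by omega) (by omega)
      rw [hpos (u (LL c) (blk (LL c) k) + i), hbi, if_pos (by omega)]
      exact b3_BB_reg (LL c) X (blk (LL c) k) i hi
  · intro k k' hkk
    have hb := blk_spec (LL c) k
    have hb' := blk_spec (LL c) k'
    have hr : ∀ k, blk (LL c) (pos k) = blk (LL c) k := by
      intro k
      have hb := blk_spec (LL c) k
      have hs := b3_u_succ (LL c) (blk (LL c) k)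
      rw [hpos]
      by_cases h : k + 1 < u (LL c) (blk (LL c) k + 1)
      · rw [if_pos h]
        exact blk_eq (LL c) (by omega) h
      · rw [if_neg h]
        exact blk_eq (LL c) le_rfl (by omega)
    have hbb : blk (LL c) k = blk (LL c) k' := by
      rw [← hr k, ← hr k', hkk]
    rw [hpos k, hpos k', hbb] at hkk
    rw [hbb] at hb
    by_cases h : k + 1 < u (LL c) (blk (LL c) k' + 1)
    · by_cases h' : k' + 1 < u (LL c) (blk (LL c) k' + 1)
      · rw [if_pos h, if_pos h'] at hkk
        omega
      · rw [if_pos h, if_neg h'] at hkk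
        omega
    · by_cases h' : k' + 1 < u (LL c) (blk (LL c) k' + 1)
      · rw [if_neg h, if_pos h'] at hkk
        omega
      · omega
  · obtain ⟨N0, hN0⟩ := eventually_atTop.mp hev
    rw [eventually_atTop]
    refine ⟨u (LL c) N0, fun j hj => ?_⟩
    have hk : sel (Nat.nth (fun k => sel k = true) j) = true :=
      Nat.nth_mem_of_infinite hInfSel j
    have hjk : j ≤ Nat.nth (fun k => sel k = true) j :=
      (Nat.nth_strictMono hInfSel).id_le j
    obtain ⟨k, hkd⟩ : ∃ k, k = Nat.nth (fun k => sel k = true) j := ⟨_, rfl⟩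
    show BB (ss c) (tt c) (LL c) X (pos (Nat.nth (fun k => sel k = true) j)) = true
    rw [← hkd] at hk hjk ⊢
    obtain ⟨h1, h2⟩ := hselT k hk
    have hb := blk_spec (LL c) k
    have hN : N0 ≤ blk (LL c) k := by
      by_contra hc
      have h3 : u (LL c) (blk (LL c) k + 1) ≤ u (LL c) N0 := (b3_u_mono (LL c)).monotone (by omega)
      omega
    rw [hpos, if_neg h1, b3_BB_head]
    exact hN0 _ hN h2

end H48L
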