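import Pool.Agent.Lib.H48L.Defs
import Pool.Agent.Lib.H48K.G1

/-!
# H48L, chunk C1: the test on fair bits
-/

open MeasureTheory Set Filter H69K H48K

namespace H48L

variable {c : ℕ → ℕ}

/-- C1. Put `L = LL c n`, `δ = 1 / (4 (c n + 1) (n + 1))`, so `L δ^2 = 16 (c n + 1)`, `th c n = L/2 + L δ/2`. If the test is
positive, then `∑ (val (X (r + i)) - 1/2) ≥ L δ / 2`, so with the constant `l = δ/4`: `∑ (l (val - 1/2) - l^2) ≥ L δ^2/8 - L δ^2/16 =
c n + 1`. `H48K.chernoff q r L (fun _ => δ/4)`. (`H69K.val b` is 1 for `true`, 0 for `false`.) -/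
theorem test_fair (q : ℕ → unitInterval) (n r : ℕ) (h : ∀ i < LL c n, (q (r + i) : ℝ) = 1 / 2) :
    mu q {X | tst c n (fun i => X (r + i)) = true} ≤
      ENNReal.ofReal (Real.exp (-((c n : ℝ) + 1))) := by
  set C : ℝ := (c n : ℝ) + 1 with hC
  set N : ℝ := (n : ℝ) + 1 with hN
  have hC1 : 1 ≤ C := by
    have : (0 : ℝ) ≤ c n := Nat.cast_nonneg _
    linarith
  have hN1 : 1 ≤ N := by
    have : (0 : ℝ) ≤ n := Nat.cast_nonneg _
    linarith
  have hC0 : 0 < C := by linarith
  have hN0 : 0 < N := by linarith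
  have hCN : 1 ≤ C * N := by nlinarith
  have hL : ((LL c n : ℕ) : ℝ) = 256 * C ^ 3 * N ^ 2 := by
    rw [LL]
    push_cast
    rw [hC, hN]
  have hth : ((th c n : ℕ) : ℝ) = 128 * C ^ 3 * N ^ 2 + 32 * C ^ 2 * N := by
    rw [th]
    push_cast
    rw [hC, hN]
  refine le_trans (measure_mono ?_) (H48K.chernoff q r (LL c n) (fun _ => 1 / (16 * C * N)) ?_ C)
  · intro X hX
    rw [mem_setOf_eq, tst, decide_eq_true_iff] at hX
    rw [mem_setOf_eq]
    have h1 : ((th c n : ℕ) : ℝ) ≤ ∑ i ∈ Finset.range (LL c n), val (X (r + i)) := by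
      have h2 : ((th c n : ℕ) : ℝ) ≤
          ((∑ i ∈ Finset.range (LL c n), (if X (r + i) = true then 1 else 0) : ℕ) : ℝ) := by
        exact_mod_cast hX
      push_cast at h2
      refine le_trans h2 (le_of_eq (Finset.sum_congr rfl fun i _ => ?_))
      rw [val]
    have h3 : ∑ i ∈ Finset.range (LL c n), (1 / (16 * C * N) * (val (X (r + i)) - (q (r + i) : ℝ)) -
        (1 / (16 * C * N)) ^ 2) =
        1 / (16 * C * N) * (∑ i ∈ Finset.range (LL c n), val (X (r + i)) -
          (LL c n : ℝ) * (1 / 2)) - (LL c n : ℝ) * (1 / (16 * C * N)) ^ 2 := by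
      rw [Finset.sum_sub_distrib, ← Finset.mul_sum, Finset.sum_sub_distrib]
      rw [Finset.sum_congr rfl (fun i hi => h i (Finset.mem_range.1 hi)), Finset.sum_const, Finset.sum_const,
        Finset.card_range, nsmul_eq_mul, nsmul_eq_mul]
    rw [h3, hL]
    rw [hth] at h1
    set s : ℝ := ∑ i ∈ Finset.range (LL c n), val (X (r + i)) with hs
    have h4 : 1 / (16 * C * N) * (s - 256 * C ^ 3 * N ^ 2 * (1 / 2)) -
        256 * C ^ 3 * N ^ 2 * (1 / (16 * C * N)) ^ 2 =
        (s - 128 * C ^ 3 * N ^ 2) / (16 * C * N) - C := by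
      field_simp
      ring
    rw [h4]
    have h5 : 2 * C ≤ (s - 128 * C ^ 3 * N ^ 2) / (16 * C * N) := by
      rw [le_div_iff₀ (by positivity)]
      nlinarith
    linarith
  · intro i _
    rw [abs_of_pos (by positivity), div_le_one (by positivity)]
    nlinarith

end H48L
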