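import Pool.Agent.Lib.H48L.Defs
import Pool.Agent.Lib.H48K.G1

/-!
# H48L, chunk C2: the test on biased bits
-/

open MeasureTheory Set Filter H69K H48K

namespace H48L

variable {c : ℕ → ℕ}

/-- C2. Put `L = LL c n`, `δ = 1 / (4 (c n + 1) (n + 1))`, so `L δ^2 = 16 (c n + 1)`, `th c n = L/2 + L δ/2`. If the test is
negative, then `∑ val (X (r + i)) < L/2 + L δ/2`, so `∑ (val - p) < - L δ/2` for `p = 1/2 + δ`, so with the constant `l = -δ/4`:
`∑ (l (val - p) - l^2) ≥ L δ^2/8 - L δ^2/16 = c n + 1`. `H48K.chernoff q r L (fun _ => -δ/4)`. -/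
theorem test_biased (q : ℕ → unitInterval) (n r : ℕ)
    (h : ∀ i < LL c n, (q (r + i) : ℝ) = 1 / 2 + 1 / (4 * ((c n : ℝ) + 1) * ((n : ℝ) + 1))) :
    mu q {X | tst c n (fun i => X (r + i)) = false} ≤
      ENNReal.ofReal (Real.exp (-((c n : ℝ) + 1))) := by
  set C : ℝ := (c n : ℝ) + 1 with hC
  set N : ℝ := (n : ℝ) + 1 with hN
  have hC1 : 1 ≤ C := by
    have : (0 : ℝ) ≤ c n := Nat.cast_nonneg _
    linarith
  have hN1 : 1 ≤ N := by
    have : (0 : ℝ) ≤ n := Nat.cast_nonneg _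
    linarith
  have hC0 : 0 < C := by linarith
  have hN0 : 0 < N := by linarith
  have hCN : 1 ≤ C * N := by nlinarith
  have hL : ((LL c n : ℕ) : ℝ) = 256 * C ^ 3 * N ^ 2 := by
    rw [LL]
    push_cast
    rw [hC, hN]
  have hth : ((th c n : ℕ) : ℝ) = 128 * C ^ 3 * N ^ 2 + 32 * C ^ 2 * N := by
    rw [th]
    push_cast
    rw [hC, hN]
  refine le_trans (measure_mono ?_) (H48K.chernoff q r (LL c n) (fun _ => -(1 / (16 * C * N))) ?_ C)
  · intro X hX
    rw [mem_setOf_eq, tst, decide_eq_false_iff_not, not_le] at hX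
    rw [mem_setOf_eq]
    have h1 : ∑ i ∈ Finset.range (LL c n), val (X (r + i)) < th c n := by
      have h2 : ((∑ i ∈ Finset.range (LL c n), (if X (r + i) = true then 1 else 0) : ℕ) : ℝ) <
          ((th c n : ℕ) : ℝ) := by exact_mod_cast hX
      push_cast at h2
      refine lt_of_le_of_lt (le_of_eq (Finset.sum_congr rfl fun i _ => ?_)) h2
      rw [val]
    have h3 : ∑ i ∈ Finset.range (LL c n), (-(1 / (16 * C * N)) * (val (X (r + i)) - (q (r + i) : ℝ)) -
        (-(1 / (16 * C * N))) ^ 2) =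
        -(1 / (16 * C * N)) * (∑ i ∈ Finset.range (LL c n), val (X (r + i)) -
          (LL c n : ℝ) * (1 / 2 + 1 / (4 * C * N))) - (LL c n : ℝ) * (-(1 / (16 * C * N))) ^ 2 := by
      rw [Finset.sum_sub_distrib, ← Finset.mul_sum, Finset.sum_sub_distrib]
      rw [Finset.sum_congr rfl (fun i hi => h i (Finset.mem_range.1 hi)), Finset.sum_const, Finset.sum_const,
        Finset.card_range, nsmul_eq_mul, nsmul_eq_mul]
    rw [h3, hL]
    rw [hth] at h1
    set s : ℝ := ∑ i ∈ Finset.range (LL c n), val (X (r + i)) with hs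
    have h4 : -(1 / (16 * C * N)) * (s - 256 * C ^ 3 * N ^ 2 * (1 / 2 + 1 / (4 * C * N))) -
        256 * C ^ 3 * N ^ 2 * (-(1 / (16 * C * N))) ^ 2 =
        (128 * C ^ 3 * N ^ 2 + 64 * C ^ 2 * N - s) / (16 * C * N) - C := by
      field_simp
      ring
    rw [h4]
    have h5 : 2 * C ≤ (128 * C ^ 3 * N ^ 2 + 64 * C ^ 2 * N - s) / (16 * C * N) := by
      rw [le_div_iff₀ (by positivity)]
      nlinarith
    linarith
  · intro i _
    rw [abs_neg, abs_of_pos (by positivity), div_le_one (by positivity)]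
    nlinarith

end H48L
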