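import Pool.Agent.Lib.H48L.Defs

/-!
# H48L, chunk D1: the probabilities
-/

open MeasureTheory Set Filter H69K H48K

namespace H48L

variable {c : ℕ → ℕ}

/-- `ss (n + 1) = tt n + LL n = ss n + 1 + 2 LL n`. -/
theorem ss_succ (n : ℕ) : ss c (n + 1) = ss c n + 1 + 2 * LL c n := by
  unfold ss
  rw [Finset.sum_range_succ]
  omega

theorem ss_strictMono : StrictMono (ss c) :=
  strictMono_nat_of_lt_succ fun n => by
    rw [ss_succ]
    omega

theorem le_ss (n : ℕ) : n ≤ ss c n := ss_strictMono.le_apply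

/-- The stage of a place. (`bk s k` counts the `m < k` with `s (m + 1) ≤ k`; compare `bk_eq` in H48K.) -/
theorem bk_ss {n i : ℕ} (h1 : ss c n ≤ i) (h2 : i < ss c (n + 1)) : bk (ss c) i = n := by
  unfold bk
  have h : (Finset.range i).filter (fun m => ss c (m + 1) ≤ i) = Finset.range n := by
    ext m
    rw [Finset.mem_filter, Finset.mem_range, Finset.mem_range]
    constructor
    · rintro ⟨-, h3⟩
      have h4 : ss c (m + 1) < ss c (n + 1) := by omega
      have h5 := ss_strictMono.lt_iff_lt.1 h4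
      omega
    · intro h3
      have h4 : ss c (m + 1) ≤ ss c n := ss_strictMono.monotone (by omega)
      have h5 := le_ss (c := c) n
      exact ⟨by omega, by omega⟩
  rw [h, Finset.card_range]

private theorem d1_stage {m k : ℕ} (h1 : ss c m < k) (h2 : k ≤ ss c m + LL c m) :
    bk (ss c) k = m :=
  bk_ss h1.le (by rw [ss_succ]; omega)

/-- The first region of an active stage. -/
theorem pr_act {n i : ℕ} (ha : Act c n) (hi : i < LL c n) :
    pr c (ss c n + 1 + i) = 1 / 2 + 1 / (4 * ((c n : ℝ) + 1) * ((n : ℝ) + 1)) := by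
  have hb : bk (ss c) (ss c n + 1 + i) = n := d1_stage (by omega) (by omega)
  unfold pr
  rw [if_pos ⟨n, ha, by omega, by omega⟩, hb]

/-- The first region of a stage which is not active. -/
theorem pr_not_act {n i : ℕ} (ha : ¬ Act c n) (hi : i < LL c n) :
    pr c (ss c n + 1 + i) = 1 / 2 := by
  have hb : bk (ss c) (ss c n + 1 + i) = n := d1_stage (by omega) (by omega)
  unfold pr
  rw [if_neg]
  rintro ⟨m, hm, h1, h2⟩
  have h3 := d1_stage h1 h2
  rw [hb] at h3
  exact ha (h3 ▸ hm)

/-- The second region. -/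
theorem pr_second {n i : ℕ} (hi : i < LL c n) : pr c (tt c n + i) = 1 / 2 := by
  have hb : bk (ss c) (tt c n + i) = n :=
    bk_ss (by unfold tt; omega) (by rw [ss_succ]; unfold tt; omega)
  unfold pr
  rw [if_neg]
  rintro ⟨m, hm, h1, h2⟩
  have h3 := d1_stage h1 h2
  rw [hb] at h3
  subst h3
  unfold tt at h2
  omega

private theorem d1_bound (i : ℕ) :
    0 ≤ pr c i - 1 / 2 ∧ pr c i - 1 / 2 ≤ 1 / (4 * ((bk (ss c) i : ℝ) + 1)) := by
  have h1 : (0 : ℝ) ≤ (c (bk (ss c) i) : ℝ) := Nat.cast_nonneg _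
  have h2 : (0 : ℝ) ≤ (bk (ss c) i : ℝ) := Nat.cast_nonneg _
  unfold pr
  split_ifs
  · constructor
    · rw [add_sub_cancel_left]
      positivity
    · rw [add_sub_cancel_left]
      apply one_div_le_one_div_of_le
      · positivity
      · nlinarith
  · constructor
    · simp
    · rw [sub_self]
      positivity

theorem pr_mem (i : ℕ) : 0 < pr c i ∧ pr c i < 1 := by
  obtain ⟨h1, h2⟩ := d1_bound (c := c) i
  have h3 : (0 : ℝ) ≤ (bk (ss c) i : ℝ) := Nat.cast_nonneg _
  have h4 : 1 / (4 * ((bk (ss c) i : ℝ) + 1)) ≤ 1 / 4 := by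
    apply one_div_le_one_div_of_le
    · norm_num
    · linarith
  constructor
  · linarith
  · linarith

private theorem d1_le_bk {n i : ℕ} (h : ss c n ≤ i) : n ≤ bk (ss c) i := by
  unfold bk
  have h1 : Finset.range n ⊆ (Finset.range i).filter (fun m => ss c (m + 1) ≤ i) := by
    intro m hm
    rw [Finset.mem_range] at hm
    rw [Finset.mem_filter, Finset.mem_range]
    have h4 : ss c (m + 1) ≤ ss c n := ss_strictMono.monotone (by omega)
    have h5 := le_ss (c := c) n
    exact ⟨by omega, by omega⟩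
  have h2 := Finset.card_le_card h1
  rwa [Finset.card_range] at h2

/-- `|pr c i - 1/2| ≤ 1 / (4 (bk (ss c) i + 1))`, and `bk (ss c) i → ∞`. -/
theorem tendsto_pr : Tendsto (pr c) atTop (nhds (1 / 2)) := by
  have hb : Tendsto (fun i => bk (ss c) i) atTop atTop := by
    rw [tendsto_atTop]
    intro n
    filter_upwards [eventually_ge_atTop (ss c n)] with i hi
    exact d1_le_bk hi
  have h1 : Tendsto (fun i => 1 / (4 * ((bk (ss c) i : ℝ) + 1))) atTop (nhds 0) := by
    have h2 : Tendsto (fun i => (bk (ss c) i : ℝ)) atTop atTop := tendsto_natCast_atTop_atTop.comp hb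
    have h3 : Tendsto (fun i => 4 * ((bk (ss c) i : ℝ) + 1)) atTop atTop :=
      (tendsto_atTop_add_const_right _ _ h2).const_mul_atTop (by norm_num)
    have h4 := h3.inv_tendsto_atTop
    refine h4.congr fun i => ?_
    rw [Pi.inv_apply, one_div]
  have h4 : Tendsto (fun i => pr c i - 1 / 2) atTop (nhds 0) :=
    squeeze_zero (fun i => (d1_bound i).1) (fun i => (d1_bound i).2) h1
  have h5 := h4.add_const (1 / 2)
  simpa using h5

end H48L
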