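import Pool.Agent.Lib.H48L.C1
import Pool.Agent.Lib.H48L.C2
import Pool.Agent.Lib.H48L.D1

/-!
# H48L, chunk D2: almost all sequences
-/

open MeasureTheory Set Filter H69K H48K

namespace H48L

variable {c : ℕ → ℕ}

/-- D2. Borel-Cantelli (`measure_limsup_eq_zero` / `ae_eventually_notMem`, compare `H48K.ae_dec` in F.lean) for the events
`{tst on region 1 = false}` for active `n` (`test_biased`), `{tst on region 1 = true}` for the other `n` (`test_fair`), `{tst on
region 2 = true}` for all `n` (`test_fair`); `∑ exp (-(c n + 1)) < ∞` because `exp (-(c n + 1)) ≤ (1/2)^(c n)`. For large `n`: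
if `DD c X n = true`, then `reg` is region 1, so `X (ss c n) = true`; if `n` is active and `X (ss c n) = true`, then
`reg` is region 1 and the test is positive. -/
theorem ae_DD (hc : Summable fun n : ℕ => (1 / 2 : ℝ) ^ c n) (q : ℕ → unitInterval)
    (hq : ∀ i, (q i : ℝ) = pr c i) :
    ∀ᵐ X ∂(mu q), ∀ᶠ n in atTop, (DD c X n = true → X (ss c n) = true) ∧
      (Act c n → X (ss c n) = true → DD c X n = true) := by
  classical
  have hle : ∀ n, Real.exp (-((c n : ℝ) + 1)) ≤ (1 / 2 : ℝ) ^ c n := by
    intro n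
    have h1 : Real.exp (-1 : ℝ) ≤ 1 / 2 := by
      have h2 : (2 : ℝ) ≤ Real.exp 1 := by
        have := Real.add_one_le_exp (1 : ℝ)
        linarith
      rw [Real.exp_neg, one_div]
      exact inv_anti₀ (by norm_num) h2
    calc Real.exp (-((c n : ℝ) + 1)) ≤ Real.exp (-(c n : ℝ)) := Real.exp_le_exp.2 (by linarith)
      _ = Real.exp (-1) ^ c n := by
        rw [← Real.exp_nat_mul]
        congr 1
        ring
      _ ≤ (1 / 2) ^ c n := pow_le_pow_left₀ (Real.exp_pos _).le h1 _
  have hs : Summable fun n : ℕ => Real.exp (-((c n : ℝ) + 1)) :=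
    Summable.of_nonneg_of_le (fun n => (Real.exp_pos _).le) hle hc
  have hsum : ∑' n : ℕ, ENNReal.ofReal (Real.exp (-((c n : ℝ) + 1))) ≠ ⊤ := by
    rw [← ENNReal.ofReal_tsum_of_nonneg (fun m => (Real.exp_pos _).le) hs]
    exact ENNReal.ofReal_ne_top
  have e1 : ∑' n : ℕ, mu q (if Act c n then {X | tst c n (fun i => X (ss c n + 1 + i)) = false}
      else {X | tst c n (fun i => X (ss c n + 1 + i)) = true}) ≤
      ∑' n : ℕ, ENNReal.ofReal (Real.exp (-((c n : ℝ) + 1))) := by
    refine ENNReal.tsum_le_tsum fun n => ?_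
    by_cases ha : Act c n
    · rw [if_pos ha]
      exact test_biased q n (ss c n + 1) fun i hi => by rw [hq, pr_act ha hi]
    · rw [if_neg ha]
      exact test_fair q n (ss c n + 1) fun i hi => by rw [hq, pr_not_act ha hi]
  have e2 : ∑' n : ℕ, mu q {X | tst c n (fun i => X (tt c n + i)) = true} ≤
      ∑' n : ℕ, ENNReal.ofReal (Real.exp (-((c n : ℝ) + 1))) :=
    ENNReal.tsum_le_tsum fun n => test_fair q n (tt c n) fun i hi => by rw [hq, pr_second hi]
  have h1 := ae_eventually_notMem (ne_top_of_le_ne_top hsum e1)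
  have h2 := ae_eventually_notMem (ne_top_of_le_ne_top hsum e2)
  filter_upwards [h1, h2] with X hX1 hX2
  filter_upwards [hX1, hX2] with n hn1 hn2
  unfold DD
  cases hx : X (ss c n) with
  | true =>
    have h3 : reg (ss c) (tt c) X n = fun i => X (ss c n + 1 + i) := by
      funext i
      unfold reg
      rw [if_pos hx]
    refine ⟨fun _ => rfl, fun ha _ => ?_⟩
    rw [h3]
    by_contra hcon
    rw [Bool.not_eq_true] at hcon
    apply hn1
    rw [if_pos ha]
    exact hcon
  | false =>
    have h3 : reg (ss c) (tt c) X n = fun i => X (tt c n + i) := by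
      funext i
      unfold reg
      rw [if_neg (by rw [hx]; exact Bool.false_ne_true)]
    refine ⟨fun h => ?_, fun _ h => absurd h Bool.false_ne_true⟩
    rw [h3] at h
    exact absurd h hn2

end H48L
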