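import Pool.Agent.Lib.H48K.F2
import Pool.Agent.Lib.H48K.Defs5

/-!
# H48L: universal rules which work below every computable order: definitions

`c` is the cost function of the stages: the test of the stage `n` has error at most `exp (-(c n + 1))`.
-/

open MeasureTheory Set Filter H69K H48K

namespace H48L

/-- The computation number `m` (code number and input) has stopped within `t` steps, with a result `≤ t`. -/
def st (t m : ℕ) : Bool :=
  match Nat.Partrec.Code.evaln t (Denumerable.ofNat Nat.Partrec.Code m.unpair.1) m.unpair.2 with
  | some x => decide (x ≤ t)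
  | none => false

/-- The cost of the stage `t`: the least `m < t` such that the computation `m` stops exactly at the step `t`, and
`t` if there is no such `m`. -/
def cost (t : ℕ) : ℕ := (List.range t).findIdx fun m => st t m && !(st (t - 1) m)

section

variable (c : ℕ → ℕ)

/-- The length of the regions of the stage `n`. -/
def LL (n : ℕ) : ℕ := 256 * (c n + 1) ^ 3 * (n + 1) ^ 2

/-- The header of the stage `n`. -/
def ss (n : ℕ) : ℕ := ∑ m ∈ Finset.range n, (1 + 2 * LL c m)

/-- The second region of the stage `n` begins at `tt n`; the first one at `ss n + 1`. -/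
def tt (n : ℕ) : ℕ := ss c n + 1 + LL c n

/-- The threshold of the test of the stage `n`. -/
def th (n : ℕ) : ℕ := 128 * (c n + 1) ^ 3 * (n + 1) ^ 2 + 32 * (c n + 1) ^ 2 * (n + 1)

/-- The test of the stage `n` for the bits `y i`, `i < LL n`. -/
def tst (n : ℕ) (y : ℕ → Bool) : Bool :=
  decide (th c n ≤ ∑ i ∈ Finset.range (LL c n), if y i = true then 1 else 0)

/-- The second rule (as `H48K.f2`, with the test `tst`). -/
def gg (v : List Bool) : ℕ × Bool :=
  if v.length + 1 < u (LL c) (blk (LL c) v.length + 1) then (v.length + 1, false)
  else (u (LL c) (blk (LL c) v.length),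
    tst c (blk (LL c) v.length) (fun i => v.getD (u (LL c) (blk (LL c) v.length) + i) false))

/-- The decision in the stage `n`. -/
def DD (X : ℕ → Bool) (n : ℕ) : Bool := tst c n (reg (ss c) (tt c) X n)

/-- The stage `n` is active: all later stages have greater cost. -/
def Act (n : ℕ) : Prop := ∀ m, n < m → c n < c m

open Classical in
/-- The probability at the place `i`: `1/2 + 1/(4 (c n + 1) (n + 1))` in the first region of an active stage `n`,
otherwise `1/2`. -/
noncomputable def pr (i : ℕ) : ℝ :=
  if ∃ n, Act c n ∧ ss c n < i ∧ i ≤ ss c n + LL c n then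
    1 / 2 + 1 / (4 * ((c (bk (ss c) i) : ℝ) + 1) * ((bk (ss c) i : ℝ) + 1)) else 1 / 2

end

end H48L
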