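import Pool.Agent.Lib.H48L.D1

/-!
# H48L, chunk E1: the capital
-/

open MeasureTheory Set Filter H69K H48K

namespace H48L

variable {c : ℕ → ℕ}

/-- E1. `QQ p x = ∏_(i < x) (1 + 4 (p i - 1/2)^2) ≤ exp (∑_(i < x) 4 (p i - 1/2)^2)`, and the sum is at most the sum over the
active stages `n` with `ss c n < x` of `LL c n * 4 * (1 / (4 (c n + 1) (n + 1)))^2 = 64 (c n + 1)`. The costs of
different active stages are different (`Act`) and at most `K`, so the sum is at most `64 ∑_(k ≤ K) (k + 1) ≤ 64 (K + 1)^2`.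
For the first estimate: the places `i < x` with `pr c i ≠ 1/2` are in the union over these `n` of
`Finset.Ioc (ss c n) (ss c n + LL c n)`; `Finset.sum_biUnion_le`-like estimate, no disjointness needed. -/
theorem QQ_bound (x K : ℕ) (h : ∀ n, Act c n → ss c n < x → c n ≤ K) :
    QQ (pr c) x ≤ Real.exp (64 * ((K : ℝ) + 1) ^ 2) := by
  classical
  have h1 : QQ (pr c) x ≤ Real.exp (∑ i ∈ Finset.range x, 4 * (pr c i - 1 / 2) ^ 2) := by
    unfold QQ
    rw [Real.exp_sum]
    refine Finset.prod_le_prod (fun i _ => by positivity) fun i _ => ?_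
    rw [add_comm]
    exact Real.add_one_le_exp _
  refine h1.trans (Real.exp_le_exp.2 ?_)
  obtain ⟨T, hT⟩ : ∃ T : Finset ℕ, T = (Finset.range x).filter
      (fun i => ∃ n, Act c n ∧ ss c n < i ∧ i ≤ ss c n + LL c n) := ⟨_, rfl⟩
  obtain ⟨S, hS⟩ : ∃ S : Finset ℕ, S = (Finset.range x).filter
      (fun n => Act c n ∧ ss c n < x) := ⟨_, rfl⟩
  have e1 : ∑ i ∈ Finset.range x, 4 * (pr c i - 1 / 2) ^ 2 = ∑ i ∈ T, 4 * (pr c i - 1 / 2) ^ 2 := by
    symm
    rw [hT]
    refine Finset.sum_subset (Finset.filter_subset _ _) fun i hi hiT => ?_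
    have h2 : pr c i = 1 / 2 := by
      unfold pr
      rw [if_neg]
      intro h2
      exact hiT (Finset.mem_filter.2 ⟨hi, h2⟩)
    rw [h2]
    norm_num
  have hst : ∀ {m k : ℕ}, ss c m < k → k ≤ ss c m + LL c m → bk (ss c) k = m :=
    fun h1 h2 => bk_ss h1.le (by rw [ss_succ]; omega)
  have hmap : ∀ i ∈ T, bk (ss c) i ∈ S := by
    intro i hi
    rw [hT] at hi
    obtain ⟨hx, n, hn, h2, h3⟩ := Finset.mem_filter.1 hi
    rw [hst h2 h3, hS]
    have h4 := le_ss (c := c) n
    have h5 := Finset.mem_range.1 hx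
    exact Finset.mem_filter.2 ⟨Finset.mem_range.2 (by omega), hn, by omega⟩
  rw [e1, ← Finset.sum_fiberwise_of_maps_to hmap]
  have e2 : ∀ n ∈ S, ∑ i ∈ T.filter (fun i => bk (ss c) i = n), 4 * (pr c i - 1 / 2) ^ 2 ≤
      64 * ((c n : ℝ) + 1) := by
    intro n hn
    rw [hS] at hn
    have hact := (Finset.mem_filter.1 hn).2.1
    have h2 : ∀ i ∈ T.filter (fun i => bk (ss c) i = n),
        i ∈ Finset.Ioc (ss c n) (ss c n + LL c n) ∧
          4 * (pr c i - 1 / 2) ^ 2 = 4 * (1 / (4 * ((c n : ℝ) + 1) * ((n : ℝ) + 1))) ^ 2 := by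
      intro i hi
      obtain ⟨hi1, hi2⟩ := Finset.mem_filter.1 hi
      rw [hT] at hi1
      obtain ⟨-, m, hm, h3, h4⟩ := Finset.mem_filter.1 hi1
      have h5 : m = n := by
        rw [← hi2, hst h3 h4]
      subst h5
      refine ⟨Finset.mem_Ioc.2 ⟨h3, h4⟩, ?_⟩
      obtain ⟨j, hj⟩ : ∃ j, i = ss c m + 1 + j := ⟨i - ss c m - 1, by omega⟩
      rw [hj, pr_act hact (by omega)]
      ring
    have h3 : (T.filter (fun i => bk (ss c) i = n)).card ≤ LL c n := by
      have h4 := Finset.card_le_card (fun i hi => (h2 i hi).1 :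
        T.filter (fun i => bk (ss c) i = n) ⊆ Finset.Ioc (ss c n) (ss c n + LL c n))
      rw [Nat.card_Ioc] at h4
      omega
    rw [Finset.sum_congr rfl fun i hi => (h2 i hi).2, Finset.sum_const, nsmul_eq_mul]
    have h4 : ((T.filter (fun i => bk (ss c) i = n)).card : ℝ) ≤ (LL c n : ℝ) := by
      exact_mod_cast h3
    refine (mul_le_mul_of_nonneg_right h4 (by positivity)).trans (le_of_eq ?_)
    have h5 : ((c n : ℝ) + 1) ≠ 0 := by positivity
    have h6 : ((n : ℝ) + 1) ≠ 0 := by positivity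
    unfold LL
    push_cast
    field_simp
    ring
  refine (Finset.sum_le_sum e2).trans ?_
  rw [← Finset.mul_sum]
  have e3 : ∑ n ∈ S, ((c n : ℝ) + 1) ≤ ((K : ℝ) + 1) ^ 2 := by
    have hK : ∀ n ∈ S, c n ≤ K := by
      intro n hn
      rw [hS] at hn
      have h2 := (Finset.mem_filter.1 hn).2
      exact h n h2.1 h2.2
    have hc : S.card ≤ K + 1 := by
      have h2 : S.card ≤ (Finset.range (K + 1)).card := by
        refine Finset.card_le_card_of_injOn c (fun n hn => ?_) ?_
        · exact Finset.mem_coe.2 (Finset.mem_range.2 (Nat.lt_succ_of_le (hK n (Finset.mem_coe.1 hn))))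
        · intro a ha b hb hab
          have ha1 : Act c a := by
            have := Finset.mem_coe.1 ha
            rw [hS] at this
            exact (Finset.mem_filter.1 this).2.1
          have hb1 : Act c b := by
            have := Finset.mem_coe.1 hb
            rw [hS] at this
            exact (Finset.mem_filter.1 this).2.1
          rcases lt_trichotomy a b with h2 | h2 | h2
          · have := ha1 b h2
            omega
          · exact h2
          · have := hb1 a h2
            omega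
      rwa [Finset.card_range] at h2
    have h2 : ∑ n ∈ S, ((c n : ℝ) + 1) ≤ ∑ _n ∈ S, ((K : ℝ) + 1) := by
      refine Finset.sum_le_sum fun n hn => ?_
      have : (c n : ℝ) ≤ (K : ℝ) := by exact_mod_cast hK n hn
      linarith
    rw [Finset.sum_const, nsmul_eq_mul] at h2
    have h3 : (S.card : ℝ) ≤ (K : ℝ) + 1 := by exact_mod_cast hc
    have h4 : (0 : ℝ) ≤ (K : ℝ) + 1 := by positivity
    calc ∑ n ∈ S, ((c n : ℝ) + 1) ≤ (S.card : ℝ) * ((K : ℝ) + 1) := h2
      _ ≤ ((K : ℝ) + 1) * ((K : ℝ) + 1) := mul_le_mul_of_nonneg_right h3 h4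
      _ = ((K : ℝ) + 1) ^ 2 := by ring
  linarith

end H48L
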