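import Pool.Agent.Lib.H48L.Defs

/-!
# H48L, chunk E2: a computable inverse of an order function
-/

open MeasureTheory Set Filter H69K H48K

namespace H48L

theorem exists_inverse {h φ : ℕ → ℕ} (hc : Computable h) (hφ : Computable φ)
    (hu : Tendsto h atTop atTop) : ∃ G : ℕ → ℕ, Computable G ∧ ∀ K, φ K ≤ h (G K) := by
  have hex : ∀ K, ∃ y, φ K ≤ h y := fun K => (tendsto_atTop.1 hu (φ K)).exists
  have hp : Computable₂ fun (K y : ℕ) => decide (φ K ≤ h y) := by
    have h1 : Computable fun q : ℕ × ℕ => decide (φ q.1 ≤ h q.2) :=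
      Primrec.nat_le.decide.to_comp.comp (hφ.comp Computable.fst) (hc.comp Computable.snd)
    exact h1
  refine ⟨fun K => Nat.find (hex K), ?_, fun K => Nat.find_spec (hex K)⟩
  have h1 : Partrec fun K : ℕ => Nat.rfind fun y => (Part.some (decide (φ K ≤ h y)) : Part Bool) :=
    Partrec.rfind hp
  refine h1.of_eq fun K => ?_
  refine Part.eq_some_iff.2 (Nat.mem_rfind.2 ⟨?_, fun {m} hm => ?_⟩)
  · show true ∈ (Part.some (decide (φ K ≤ h (Nat.find (hex K)))) : Part Bool)
    rw [decide_eq_true (Nat.find_spec (hex K))]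
    exact Part.mem_some _
  · show false ∈ (Part.some (decide (φ K ≤ h m)) : Part Bool)
    rw [decide_eq_false (Nat.find_min (hex K) hm)]
    exact Part.mem_some _

theorem computable_pow : Computable fun K : ℕ => 2 ^ (100 * (K + 1) ^ 2) := by
  have h : Primrec₂ ((· ^ ·) : ℕ → ℕ → ℕ) := Primrec₂.unpaired'.1 Nat.Primrec.pow
  have h1 : Primrec fun K : ℕ => (K + 1) ^ 2 := h.comp Primrec.succ (Primrec.const 2)
  have h2 : Primrec fun K : ℕ => 100 * (K + 1) ^ 2 := Primrec.nat_mul.comp (Primrec.const 100) h1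
  have h3 : Primrec fun K : ℕ => 2 ^ (100 * (K + 1) ^ 2) := h.comp (Primrec.const 2) h2
  exact h3.to_comp

end H48L
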