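import Pool.Agent.Lib.H48L.A3
import Pool.Agent.Lib.H48L.A4
import Pool.Agent.Lib.H48L.E1
import Pool.Agent.Lib.H48L.E2

/-!
# H48L, chunk E3: the capital is below every computable order
-/

open MeasureTheory Set Filter H69K H48K

namespace H48L

/-- E3. `G` from `exists_inverse` for `φ K = 2^(100 (K+1)^2)`; `dominate G`: for the active `n ≥ N0`, `G (cost n) ≤ n`. Let `x`
be large, and `n` the greatest active stage with `ss cost n < x` (exists and is `≥ N0` for large `x`, because there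
are infinitely many active stages; the set is finite because `n ≤ ss cost n`). All active `m` with `ss cost m < x` are `≤ n`, so
`cost m ≤ cost n =: K` (`Act`). So `QQ ≤ exp (64 (K+1)^2) ≤ 2^(100 (K+1)^2) ≤ h (G K) ≤ h n ≤ h x` (`exp 64 ≤ 2^100`: `exp 1 ≤ 2.7182818286`
(`Real.exp_one_lt_d9`) and `2.72^16 ≤ 2^25`). -/
theorem QQ_below (h : ℕ → ℕ) (hc : Computable h) (hm : Monotone h) (hu : Tendsto h atTop atTop) :
    ∀ᶠ x in atTop, QQ (pr cost) x ≤ h x := by
  classical
  have hct : Tendsto cost atTop atTop := tendsto_of_summable summable_cost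
  obtain ⟨G, hG, hGh⟩ := exists_inverse hc computable_pow hu
  obtain ⟨N0, hN0⟩ := eventually_atTop.1 (dominate G hG hct)
  obtain ⟨n0, hn0, hn0N⟩ := (infinite_act hct).exists_gt N0
  filter_upwards [eventually_gt_atTop (ss cost n0)] with x hx
  let P : ℕ → Prop := fun n => Act cost n ∧ ss cost n < x
  let n := Nat.findGreatest P x
  have hn0x : n0 ≤ x := (le_ss n0).trans hx.le
  have hP : P n := Nat.findGreatest_spec (P := P) hn0x ⟨hn0, hx⟩
  have hn0n : n0 ≤ n := Nat.le_findGreatest (P := P) hn0x ⟨hn0, hx⟩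
  have hbound : ∀ m, Act cost m → ss cost m < x → cost m ≤ cost n := by
    intro m hm1 hm2
    have hmx : m ≤ x := (le_ss m).trans hm2.le
    have hmn : m ≤ n := Nat.le_findGreatest (P := P) hmx ⟨hm1, hm2⟩
    rcases hmn.lt_or_eq with hlt | heq
    · exact (hm1 n hlt).le
    · rw [heq]
  have h1 := QQ_bound (c := cost) x (cost n) hbound
  have h2 : Real.exp (64 * ((cost n : ℝ) + 1) ^ 2) ≤ (2 : ℝ) ^ (100 * (cost n + 1) ^ 2) := by
    have h3 : Real.exp 64 ≤ (2 : ℝ) ^ 100 := by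
      have h4 : Real.exp 1 ≤ 2.7182818286 := Real.exp_one_lt_d9.le
      have h5 : Real.exp 64 = (Real.exp 1) ^ 64 := by
        rw [← Real.exp_nat_mul]
        norm_num
      rw [h5]
      calc (Real.exp 1) ^ 64 ≤ (2.7182818286 : ℝ) ^ 64 := pow_le_pow_left₀ (Real.exp_pos _).le h4 _
        _ ≤ 2 ^ 100 := by norm_num
    have h6 : Real.exp (64 * ((cost n : ℝ) + 1) ^ 2) = (Real.exp 64) ^ ((cost n + 1) ^ 2) := by
      rw [← Real.exp_nat_mul]
      congr 1
      push_cast
      ring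
    rw [h6, pow_mul]
    exact pow_le_pow_left₀ (Real.exp_pos _).le h3 _
  have h7 : (2 : ℝ) ^ (100 * (cost n + 1) ^ 2) ≤ (h (G (cost n)) : ℝ) := by
    exact_mod_cast hGh (cost n)
  have h8 : G (cost n) ≤ n := hN0 n (hn0N.le.trans hn0n) hP.1
  have h9 : h (G (cost n)) ≤ h x := hm (h8.trans ((le_ss (c := cost) n).trans hP.2.le))
  calc QQ (pr cost) x ≤ Real.exp (64 * ((cost n : ℝ) + 1) ^ 2) := h1
    _ ≤ (2 : ℝ) ^ (100 * (cost n + 1) ^ 2) := h2
    _ ≤ (h (G (cost n)) : ℝ) := h7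
    _ ≤ (h x : ℝ) := by exact_mod_cast h9

end H48L
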