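import Pool.Agent.Lib.H48L.A1
import Pool.Agent.Lib.H48L.A2
import Pool.Agent.Lib.H48L.A4
import Pool.Agent.Lib.H48L.B1
import Pool.Agent.Lib.H48L.B2
import Pool.Agent.Lib.H48L.B3
import Pool.Agent.Lib.H48L.D2
import Pool.Agent.Lib.H48L.E3
import Pool.Agent.Lib.H48K.V2

/-!
# H48L, assembly: universal rules which work below every computable order
-/

open MeasureTheory Set Filter H69K H48K

namespace H48L

/-- There are two total computable rules such that for every countable family of supermartingales some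
KL-stochastic sequence, on which every supermartingale of the family is eventually at most `h` for every
computable order `h`, is turned by the two rules into an eventually constant sequence. -/
theorem close_all :
    ∃ f g : List Bool → ℕ × Bool, Computable f ∧ Computable g ∧
      (∀ v x, (f v).2 = true ∧ (f v).1 < (f (v ++ [x])).1) ∧
      ∀ d : ℕ → List Bool → ℝ, (∀ i, SuperM (d i)) →
        ∃ X : ℕ → Bool, KLStochastic X ∧
          (∀ h : ℕ → ℕ, Computable h → Monotone h → Tendsto h atTop atTop →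
            ∀ i, ∀ᶠ n in atTop, d i (pre X n) ≤ h n) ∧
          ∃ B C : ℕ → Bool, Sel (fun v => Part.some (f v)) X B ∧
            Sel (fun v => Part.some (g v)) B C ∧ ∀ᶠ j in atTop, C j = true := by
  have hsum := summable_cost
  have hct := tendsto_of_summable hsum
  obtain ⟨hL, hs, ht, -⟩ := computable_places computable_cost
  obtain ⟨a, b, M, hP⟩ := exists_vplan cost
  let p : ℕ → unitInterval := fun i => ⟨pr cost i, (pr_mem i).1.le, (pr_mem i).2.le⟩
  have hp : ∀ i, (p i : ℝ) = pr cost i := fun i => rfl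
  have hlim : Tendsto (fun n => (p n : ℝ)) atTop (nhds (1 / 2)) := tendsto_pr
  refine ⟨f1 (ss cost) (tt cost) (LL cost), gg cost, computable_f1 hs ht hL,
    computable_gg computable_cost, fun v x => ⟨f1_sel v, f1_mono hP v x⟩, fun d hd => ?_⟩
  have hsup : ∀ᵐ X ∂(mu p), ∀ i, ∃ C : ℝ, ∀ n, d i (pre X n) ≤ C * QQ (fun n => (p n : ℝ)) n :=
    ae_all_iff.2 fun i => super_bound p (fun n => pr_mem n) (d i) (hd i)
  have hA := infinite_act hct
  have hinj : Function.Injective fun j => ss cost (Nat.nth (Act cost) j) :=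
    ss_strictMono.injective.comp (Nat.nth_strictMono hA).injective
  have hne : (mu p) ≠ 0 := IsProbabilityMeasure.ne_zero _
  have : (ae (mu p)).NeBot := ae_neBot.2 hne
  obtain ⟨X, ⟨⟨hX1, hX2⟩, hX3⟩, hX4⟩ := (((ae_KL p hlim).and (ae_DD hsum p hp)).and
    (ae_headers (s := fun j => ss cost (Nat.nth (Act cost) j)) hlim hinj)).and hsup |>.exists
  have hinf : Set.Infinite {n | DD cost X n = true} := by
    intro hfin
    apply hX3
    obtain ⟨N, hN⟩ := eventually_atTop.1 hX2
    have h1 : Set.Finite {j | Nat.nth (Act cost) j ∈ ({n | DD cost X n = true} ∪ {n | n < N})} :=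
      Set.Finite.preimage (Nat.nth_strictMono hA).injective.injOn (hfin.union (Set.finite_lt_nat N))
    refine h1.subset ?_
    intro j hj
    by_cases h : Nat.nth (Act cost) j < N
    · exact Or.inr h
    · exact Or.inl ((hN _ (not_lt.1 h)).2 (Nat.nth_mem_of_infinite hA j) hj)
  obtain ⟨C, hC1, hC2⟩ := sel_gg X hinf (hX2.mono fun n hn => hn.1)
  refine ⟨X, (kl_iff X).2 hX1, ?_, BB (ss cost) (tt cost) (LL cost) X, C, sel_f1 hP X, hC1, hC2⟩
  intro h hc hm hu i
  have hc' : Computable fun n => Nat.sqrt (h n) := Primrec.nat_sqrt.to_comp.comp hc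
  have hm' : Monotone fun n => Nat.sqrt (h n) := fun x y hxy => Nat.sqrt_le_sqrt (hm hxy)
  have hu' : Tendsto (fun n => Nat.sqrt (h n)) atTop atTop := by
    rw [tendsto_atTop]
    intro b
    filter_upwards [tendsto_atTop.1 hu (b * b)] with n hn
    exact Nat.le_sqrt.2 hn
  obtain ⟨C, hC⟩ := hX4 i
  obtain ⟨N, hN⟩ := exists_nat_ge C
  filter_upwards [tendsto_atTop.1 hu' N, QQ_below _ hc' hm' hu'] with n h1 h4
  have h5 : 0 ≤ QQ (pr cost) n := by
    unfold QQ
    exact Finset.prod_nonneg fun i _ => by positivity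
  calc d i (pre X n) ≤ C * QQ (pr cost) n := hC n
    _ ≤ (N : ℝ) * QQ (pr cost) n := mul_le_mul_of_nonneg_right hN h5
    _ ≤ ((Nat.sqrt (h n) : ℕ) : ℝ) * ((Nat.sqrt (h n) : ℕ) : ℝ) := by
        apply mul_le_mul _ h4 h5 (Nat.cast_nonneg _)
        exact_mod_cast h1
    _ ≤ (h n : ℝ) := by exact_mod_cast Nat.sqrt_le (h n)

end H48L
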